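import Pool.Agent.E8helper19.Gs.Neg
import Pool.Agent.E8helper19.Gs.Fin

/-!
Guessing for bounded depth (even for depth at most one) is equivalent, in ZFC, to guessing for
arbitrary sequences of disjoint types, and to an interval hitting principle for clubs.
-/

namespace Pool.Agent.Results.MP_891d8f_lc.DepthOneEverythingH19

open Pool.Agent.E8helper19.Gs

theorem result : List.TFAE
    [ -- depth at most one
      ∀ t : ℕ → DisjType, (∀ k, (t k).depth ≤ 1) → ∃ C, IsCSeq C ∧ Guessing C t,
      -- bounded depth: the statement of the question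
      ∀ t : ℕ → DisjType, BoundedDepth t → ∃ C, IsCSeq C ∧ Guessing C t,
      -- arbitrary sequences of disjoint types
      ∀ t : ℕ → DisjType, ∃ C, IsCSeq C ∧ Guessing C t,
      -- one sequence strongly guessing for all
      ∃ C, IsCSeq C ∧ ∀ t : ℕ → DisjType, StronglyGuessing C t,
      -- interval hitting
      IntervalHitting ] := by
  tfae_have 1 → 5 := fun h => intervalHitting_of_guessing (h tseq tseq_depth)
  tfae_have 5 → 4 := strong_of_intervalHitting
  tfae_have 4 → 3 := by
    rintro ⟨C, hC, h⟩ t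
    refine ⟨C, hC, fun f => ?_⟩
    obtain ⟨β, k, hβ, hk, h2⟩ := h t f
    have hpos : (0 : Ordinal.{0}) < β := by
      rw [pos_iff_ne_zero]
      intro h0
      exact hβ.2.1 (by rw [h0]; exact isMin_bot)
    obtain ⟨α, -, h3, h4, h5, h6⟩ := h2 0 hpos
    exact ⟨α, β, k, h4, hβ, h3, h5, hk, h6⟩
  tfae_have 3 → 2 := fun h t _ => h t
  tfae_have 2 → 1 := fun h t ht => h t ⟨1, ht⟩
  tfae_finish

end Pool.Agent.Results.MP_891d8f_lc.DepthOneEverythingH19
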